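import Pool.Agent.V11243.ALine

/-!
# A dense Aronszajn line in which Player II wins `BG(X, S)` for all payoff sets `S`

`X` is the set of all sequences of finite support in an Aronszajn line `A` with a distinguished
point `0`, with the lexicographic order.
-/

set_option autoImplicit false

open Set

namespace Pool.Agent.Results.MP_8fd369_lc.AllPayoffSets

open Pool.Agent.V11243 (Om)
open Pool.Agent.V11243.ALine (IsAronszajnLine)

/-- A strategy of Player II: given the list of the previous rounds `(a 0, b 0), …,
(a (n-1), b (n-1))` and the last move `a n` of Player I it gives the move `b n`. -/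
abbrev Strategy (X : Type) : Type := List (X × X) → X → X

/-- In the run with moves `a`, `b` Player II follows the strategy `σ`. -/
def Follows {X : Type} (σ : Strategy X) (a b : ℕ → X) : Prop :=
  ∀ n, b n = σ ((List.range n).map fun i => (a i, b i)) (a n)

/-- The moves `a 0, …, a n` of Player I are legal. -/
def LegalI {X : Type} [LinearOrder X] (a b : ℕ → X) (n : ℕ) : Prop :=
  ∀ k < n, a k < a (k + 1) ∧ a (k + 1) < b k

/-- The move `b n` of Player II is legal. -/
def LegalII {X : Type} [LinearOrder X] (a b : ℕ → X) (n : ℕ) : Prop :=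
  a n < b n ∧ ∀ k, k + 1 = n → b n < b k

/-- `σ` is a winning strategy of Player II in `BG(X, S)`: it always gives legal moves as long as
Player I makes legal moves, and no point of `S` is in all the intervals `(a n, b n)` in any run in
which Player I makes only legal moves. -/
def IsWinning {X : Type} [LinearOrder X] (S : Set X) (σ : Strategy X) : Prop :=
  ∀ a b : ℕ → X, Follows σ a b →
    (∀ n, LegalI a b n → LegalII a b n) ∧
    ((∀ n, LegalI a b n) → ¬ ∃ x ∈ S, ∀ n, a n < x ∧ x < b n)

section Power

variable {A : Type} [LinearOrder A] [Zero A]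

/-- the lexicographic power: the sequences in `A` with finite support -/
abbrev Pw (A : Type) [LinearOrder A] [Zero A] : Type :=
  {x : Lex (ℕ → A) // ∃ N, ∀ i, N ≤ i → ofLex x i = 0}

/-- the coordinates -/
def co (x : Pw A) (i : ℕ) : A := ofLex x.1 i

theorem lt_iff {x y : Pw A} : x < y ↔ ∃ i, (∀ j < i, co x j = co y j) ∧ co x i < co y i :=
  Iff.rfl

theorem ext' {x y : Pw A} (h : ∀ i, co x i = co y i) : x = y := by
  apply Subtype.ext
  apply ofLex.injective
  exact funext h

theorem exists_supp (x : Pw A) : ∃ N, ∀ i, N ≤ i → co x i = 0 := x.2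

/-- change one coordinate -/
def bump (x : Pw A) (K : ℕ) (c : A) : Pw A :=
  ⟨toLex (Function.update (co x) K c), by
    obtain ⟨N, hN⟩ := exists_supp x
    refine ⟨max N (K + 1), fun i hi => ?_⟩
    show Function.update (co x) K c i = 0
    rw [Function.update_of_ne (by omega)]
    exact hN i (by omega)⟩

theorem bump_same (x : Pw A) (K : ℕ) (c : A) : co (bump x K c) K = c := by
  show Function.update (co x) K c K = c
  simp

theorem bump_ne (x : Pw A) {K j : ℕ} (c : A) (h : j ≠ K) : co (bump x K c) j = co x j := by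
  show Function.update (co x) K c j = co x j
  rw [Function.update_of_ne h]

theorem lt_bump {x : Pw A} {K : ℕ} {c : A} (h : co x K < c) : x < bump x K c := by
  rw [lt_iff]
  exact ⟨K, fun j hj => (bump_ne x c hj.ne).symm, by rw [bump_same]; exact h⟩

/-- The response of Player II. -/
theorem response {c : A} (hc : 0 < c) (N : ℕ) (a : Pw A) (b : Option (Pw A))
    (hb : ∀ y ∈ b, a < y) : ∃ y : Pw A, a < y ∧ (∀ z ∈ b, y < z) ∧
      ∃ K, N ≤ K ∧ (∀ j, K ≤ j → co a j = 0) ∧ ∀ x, a < x → x < y → ∀ j < K, co x j = co a j := by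
  obtain ⟨M, hM⟩ := exists_supp a
  have key : ∀ K, M ≤ K → N ≤ K → (∀ z ∈ b, bump a K c < z) → ∃ y : Pw A, a < y ∧
      (∀ z ∈ b, y < z) ∧
      ∃ K, N ≤ K ∧ (∀ j, K ≤ j → co a j = 0) ∧ ∀ x, a < x → x < y → ∀ j < K, co x j = co a j := by
    intro K hMK hNK hz
    refine ⟨bump a K c, lt_bump (by rw [hM K hMK]; exact hc), hz, K, hNK,
      fun j hj => hM j (hMK.trans hj), fun x hax hxy j hj => ?_⟩
    obtain ⟨p, hp1, hp2⟩ := lt_iff.1 hax
    by_contra hne
    have hpK : p < K := by
      by_contra hpK
      exact hne (hp1 j (hj.trans_le (not_lt.1 hpK))).symm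
    have hlt : bump a K c < x := by
      rw [lt_iff]
      refine ⟨p, fun i hi => ?_, ?_⟩
      · rw [bump_ne a c (hi.trans hpK).ne]
        exact hp1 i hi
      · rw [bump_ne a c hpK.ne]
        exact hp2
    exact absurd hxy (not_lt.2 hlt.le)
  cases b with
  | none => exact key (max M N) (le_max_left _ _) (le_max_right _ _) (by simp)
  | some b =>
    obtain ⟨i, hi1, hi2⟩ := lt_iff.1 (hb b rfl)
    refine key (max (max M N) (i + 1)) (by omega) (by omega) ?_
    rintro z hz
    obtain rfl : b = z := by simpa using hz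
    rw [lt_iff]
    refine ⟨i, fun j hj => ?_, ?_⟩
    · rw [bump_ne a c (by omega)]
      exact hi1 j hj
    · rw [bump_ne a c (by omega)]
      exact hi2

theorem dense {c : A} (hc : 0 < c) (x y : Pw A) (hxy : x < y) : ∃ z, x < z ∧ z < y := by
  obtain ⟨z, h1, h2, -⟩ := response hc 0 x (some y) (by
    intro w hw
    obtain rfl : y = w := by simpa using hw
    exact hxy)
  exact ⟨z, h1, h2 y rfl⟩

open Classical in
/-- the strategy of Player II -/
noncomputable def strat : Strategy (Pw A) := fun h a =>
  if hx : ∃ y : Pw A, a < y ∧ (∀ z ∈ h.getLast?.map Prod.snd, y < z) ∧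
      ∃ K, h.length ≤ K ∧ (∀ j, K ≤ j → co a j = 0) ∧ ∀ x, a < x → x < y → ∀ j < K, co x j = co a j then
    hx.choose else a

theorem getLast_hist (a b : ℕ → Pw A) (n : ℕ) :
    ((List.range n).map fun i => (a i, b i)).getLast?.map Prod.snd =
      match n with
      | 0 => none
      | k + 1 => some (b k) := by
  cases n with
  | zero => rfl
  | succ k => simp [List.range_succ]

theorem isWinning {c : A} (hc : 0 < c) (S : Set (Pw A)) : IsWinning S strat := by
  intro a b hab
  have hstep : ∀ n, LegalI a b n → a n < b n ∧ (∀ k, k + 1 = n → b n < b k) ∧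
      ∃ K, n ≤ K ∧ (∀ j, K ≤ j → co (a n) j = 0) ∧
        ∀ x, a n < x → x < b n → ∀ j < K, co x j = co (a n) j := by
    intro n hn
    have hlen : ((List.range n).map fun i => (a i, b i)).length = n := by simp
    have hlast := getLast_hist a b n
    have hex : ∃ y : Pw A, a n < y ∧
        (∀ z ∈ ((List.range n).map fun i => (a i, b i)).getLast?.map Prod.snd, y < z) ∧
        ∃ K, ((List.range n).map fun i => (a i, b i)).length ≤ K ∧ (∀ j, K ≤ j → co (a n) j = 0) ∧
          ∀ x, a n < x → x < y → ∀ j < K, co x j = co (a n) j := by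
      refine response hc _ (a n) _ ?_
      intro y hy
      rw [hlast] at hy
      cases n with
      | zero => simp at hy
      | succ k =>
        obtain rfl : b k = y := by simpa using hy
        exact (hn k (Nat.lt_succ_self k)).2
    have hb : b n = hex.choose := by
      rw [hab n]
      unfold strat
      rw [dif_pos hex]
    have hsp := hex.choose_spec
    rw [← hb] at hsp
    obtain ⟨h1, h2, K, h3, h4⟩ := hsp
    refine ⟨h1, ?_, K, hlen ▸ h3, h4⟩
    rintro k rfl
    apply h2
    rw [hlast]
    rfl
  refine ⟨fun n hn => ⟨(hstep n hn).1, (hstep n hn).2.1⟩, fun hleg => ?_⟩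
  rintro ⟨x, -, hx⟩
  obtain ⟨N, hN⟩ := exists_supp x
  obtain ⟨-, -, K, hK, h1, h2⟩ := hstep N (hleg N)
  have h3 := h2 x (hx N).1 (hx N).2
  have : x = a N := by
    apply ext'
    intro i
    by_cases hi : i < K
    · exact h3 i hi
    · rw [h1 i (not_lt.1 hi), hN i (hK.trans (not_lt.1 hi))]
  exact absurd (hx N).1 (by rw [← this]; exact lt_irrefl x)

/-- A lexicographically increasing sequence of length `ω₁` of sequences in `A` gives a copy of `ω₁`
in `A`. -/
theorem no_seq {B : Type} [LinearOrder B] (hB : ¬ ∃ f : Om → B, StrictMono f)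
    (F : Om → ℕ → B) (hF : ∀ α β, α < β → ∃ i, (∀ j < i, F α j = F β j) ∧ F α i < F β i) :
    False := by
  have key : ∀ k : ℕ, ∃ c, {α | F α k ≠ c}.Countable := by
    intro k
    induction k using Nat.strong_induction_on with
    | _ k ih =>
      have ih' : ∀ j : ℕ, ∃ c, j < k → {α | F α j ≠ c}.Countable := by
        intro j
        by_cases hj : j < k
        · obtain ⟨c, hc⟩ := ih j hj
          exact ⟨c, fun _ => hc⟩
        · exact ⟨F (Classical.choice (by
            obtain ⟨α, -⟩ := Pool.Agent.V11243.Om.exists_notMem_of_countable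
              (Set.countable_empty (α := Om))
            exact ⟨α⟩)) 0, fun h => absurd h hj⟩
      choose c hc using ih'
      obtain ⟨γ, hγ⟩ := Pool.Agent.V11243.Om.exists_gt_of_countable
        (Set.Countable.biUnion (Set.finite_Iio k).countable (fun j hj => hc j hj))
      have hcst : ∀ α, γ ≤ α → ∀ j < k, F α j = c j := by
        intro α hα j hj
        by_contra hne
        have := hγ α (Set.mem_biUnion (show j ∈ Set.Iio k from hj) hne)
        exact absurd hα (not_le.2 this)
      have hmono : Monotone (fun α : Om => F (max γ α) k) := by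
        intro α β hαβ
        rcases (max_le_max_left γ hαβ).lt_or_eq with h | h
        · obtain ⟨i, h1, h2⟩ := hF _ _ h
          rcases lt_trichotomy i k with hik | hik | hik
          · rw [hcst _ (le_max_left _ _) i hik, hcst _ (le_max_left _ _) i hik] at h2
            exact absurd h2 (lt_irrefl _)
          · rw [← hik]
            exact h2.le
          · exact (h1 k hik).le
        · show F (max γ α) k ≤ F (max γ β) k
          rw [h]
      obtain ⟨d, hd⟩ := Pool.Agent.V11243.Om.eventually_const hB _ hmono
      refine ⟨d, (hd.union (Pool.Agent.V11243.Om.countable_Iio γ)).mono ?_⟩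
      intro α hα
      rcases lt_or_ge α γ with h | h
      · exact Or.inr h
      · left
        show F (max γ α) k ≠ d
        rw [max_eq_right h]
        exact hα
  choose c hc using key
  obtain ⟨γ, hγ⟩ := Pool.Agent.V11243.Om.exists_gt_of_countable (Set.countable_iUnion hc)
  obtain ⟨γ', hγ'⟩ := Pool.Agent.V11243.Om.exists_gt_of_countable (Set.countable_singleton γ)
  have hcst : ∀ α, γ ≤ α → ∀ j, F α j = c j := by
    intro α hα j
    by_contra hne
    exact absurd hα (not_le.2 (hγ α (Set.mem_iUnion.2 ⟨j, hne⟩)))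
  obtain ⟨i, -, h2⟩ := hF γ γ' (hγ' γ rfl)
  rw [hcst γ le_rfl, hcst γ' (hγ' γ rfl).le] at h2
  exact absurd h2 (lt_irrefl _)

theorem real_countable (hA : IsAronszajnLine A) (n : ℕ) : ∀ k m : ℕ, m + k = n →
    ∀ S : Set (Pw A), (∀ x ∈ S, ∀ y ∈ S, ∀ j < m, co x j = co y j) → (∀ x ∈ S, ∀ j, n ≤ j → co x j = 0) →
      ∀ f : Pw A → ℝ, StrictMonoOn f S → S.Countable := by
  intro k
  induction k with
  | zero =>
    intro m hm S h1 h2 f hf
    have : S.Subsingleton := by
      intro x hx y hy
      apply ext'
      intro i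
      by_cases hi : i < m
      · exact h1 x hx y hy i hi
      · rw [h2 x hx i (by omega), h2 y hy i (by omega)]
    exact this.countable
  | succ k ih =>
    intro m hm S h1 h2 f hf
    have hfib : ∀ a, {x ∈ S | co x m = a}.Countable := by
      intro a
      refine ih (m + 1) (by omega) _ ?_ (fun x hx => h2 x hx.1) f (hf.mono fun x hx => hx.1)
      rintro x ⟨hx, hxa⟩ y ⟨hy, hya⟩ j hj
      rcases Nat.lt_succ_iff_lt_or_eq.1 hj with h | h
      · exact h1 x hx y hy j h
      · rw [h, hxa, hya]
    have hproj : ((fun x : Pw A => co x m) '' S).Countable := by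
      have hch : ∀ a : A, a ∈ (fun x : Pw A => co x m) '' S → ∃ x ∈ S, co x m = a := fun a ha => ha
      have : Nonempty (Pw A) := ⟨⟨toLex fun _ => 0, 0, fun _ _ => rfl⟩⟩
      choose! s hs1 hs2 using hch
      refine hA.real _ ⟨fun a => f (s a), ?_⟩
      intro a ha a' ha' haa
      refine hf (hs1 a ha) (hs1 a' ha') ?_
      rw [lt_iff]
      refine ⟨m, fun j hj => h1 _ (hs1 a ha) _ (hs1 a' ha') j hj, ?_⟩
      rw [hs2 a ha, hs2 a' ha']
      exact haa
    refine (hproj.biUnion fun a _ => hfib a).mono ?_
    intro x hx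
    exact Set.mem_biUnion (show co x m ∈ (fun x : Pw A => co x m) '' S from ⟨x, hx, rfl⟩) ⟨hx, rfl⟩

theorem isAronszajnLine_power (hA : IsAronszajnLine A) : IsAronszajnLine (Pw A) where
  uncountable := by
    intro h
    apply hA.uncountable
    let z0 : Pw A := ⟨toLex fun _ => 0, 0, fun _ _ => rfl⟩
    have hinj : Function.Injective (fun a : A => bump z0 0 a) := by
      intro a b hab
      have h1 : co (bump z0 0 a) 0 = co (bump z0 0 b) 0 := by
        show co ((fun a : A => bump z0 0 a) a) 0 = _
        rw [hab]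
      rwa [bump_same, bump_same] at h1
    have : Countable (Pw A) := Set.countable_univ_iff.1 h
    exact Set.countable_univ_iff.2 hinj.countable
  no_inc := by
    rintro ⟨f, hf⟩
    exact no_seq hA.no_inc (fun α j => co (f α) j) fun α β h => lt_iff.1 (hf h)
  no_dec := by
    rintro ⟨f, hf⟩
    have h1 : ¬ ∃ g : Om → Aᵒᵈ, StrictMono g := by
      rintro ⟨g, hg⟩
      exact hA.no_dec ⟨fun α => OrderDual.ofDual (g α), fun α β h => hg h⟩
    refine no_seq h1 (fun α j => OrderDual.toDual (co (f α) j)) fun α β h => ?_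
    obtain ⟨i, h2, h3⟩ := lt_iff.1 (hf h)
    exact ⟨i, fun j hj => congrArg OrderDual.toDual (h2 j hj).symm, h3⟩
  real := by
    rintro S ⟨f, hf⟩
    have h1 : S ⊆ ⋃ n, {x ∈ S | ∀ j, n ≤ j → co x j = 0} := by
      intro x hx
      obtain ⟨N, hN⟩ := exists_supp x
      exact Set.mem_iUnion.2 ⟨N, hx, hN⟩
    refine (Set.countable_iUnion fun n => ?_).mono h1
    exact real_countable hA n n 0 (by omega) _ (fun x _ y _ j hj => absurd hj (by omega))
      (fun x hx => hx.2) f (hf.mono fun x hx => hx.1)

end Power

/-- **Theorem.** There is a dense Aronszajn line `X` (without a largest element) such that Player II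
has a winning strategy in `BG(X, S)` for every `S ⊆ X`; one and the same strategy wins for all `S`. -/
theorem result : ∃ (X : Type) (_ : LinearOrder X), IsAronszajnLine X ∧
    (∀ x y : X, x < y → ∃ z, x < z ∧ z < y) ∧ (∀ x : X, ∃ y, x < y) ∧
    ∃ σ : Strategy X, ∀ S : Set X, IsWinning S σ := by
  let A := Pool.Agent.V11243.ALine.A
  have hA : IsAronszajnLine A := Pool.Agent.V11243.ALine.isAronszajnLine_A
  obtain ⟨a0, c, hc⟩ : ∃ a0 c : A, a0 < c := by
    by_contra hcon
    push Not at hcon
    apply hA.uncountable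
    have : (Set.univ : Set A).Subsingleton := by
      intro x _ y _
      exact le_antisymm (not_lt.1 (hcon y x)) (not_lt.1 (hcon x y))
    exact this.countable
  let _ : Zero A := ⟨a0⟩
  refine ⟨Pw A, inferInstance, isAronszajnLine_power hA, dense hc, fun x => ?_,
    strat, fun S => isWinning hc S⟩
  obtain ⟨y, hy, -⟩ := response (c := c) hc 0 x none (by simp)
  exact ⟨y, hy⟩

end Pool.Agent.Results.MP_8fd369_lc.AllPayoffSets
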